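import Pool.Agent.Gunport.Table
import Pool.Agent.Gunport.Data1
import Pool.Agent.Gunport.Data2

namespace Pool.Agent.Gunport

set_option maxRecDepth 100000

theorem c0 : stepf TB1 (lk R1) 0 XS 4 = true := by decide +kernel

theorem c1 : allCT (stepf TB1 (lk R2) 0) R1 = true := by decide +kernel

theorem c2a : allCT (stepf TB1 (lk R3) 0) R2a = true := by decide +kernel

theorem c2b : allCT (stepf TB1 (lk R3) 0) R2b = true := by decide +kernel

theorem c2 : allCT (stepf TB1 (lk R3) 0) R2 = true :=
  (allCT_node c2a c2b)

theorem c3 : allCT (stepf TB1 (lk R4) 0) R3 = true := by decide +kernel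

theorem c4 : allCT (stepf TB1 (lk R5) 0) R4 = true := by decide +kernel

theorem c5 : allCT (stepf TB1 (lk R6) 0) R5 = true := by decide +kernel

theorem c6 : allCT (stepf TB1 (lk R7) 0) R6 = true := by decide +kernel

theorem c7 : allCT (stepf TB1 (lk R8) 0) R7 = true := by decide +kernel

theorem c8 : allCT (stepf TB1 (lk R9) 4) R8 = true := by decide +kernel

theorem c9a : allCT (stepf TB1 (lk R10) 0) R9a = true := by decide +kernel

theorem c9b : allCT (stepf TB1 (lk R10) 0) R9b = true := by decide +kernel

theorem c9 : allCT (stepf TB1 (lk R10) 0) R9 = true :=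
  (allCT_node c9a c9b)

end Pool.Agent.Gunport
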