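import Pool.Agent.Gunport.Table
import Pool.Agent.Gunport.Data2
import Pool.Agent.Gunport.Data3

namespace Pool.Agent.Gunport

set_option maxRecDepth 100000

theorem c10aaa : allCT (stepf TB1 (lk R11) 0) R10aaa = true := by decide +kernel

theorem c10aab : allCT (stepf TB1 (lk R11) 0) R10aab = true := by decide +kernel

theorem c10aba : allCT (stepf TB1 (lk R11) 0) R10aba = true := by decide +kernel

theorem c10abb : allCT (stepf TB1 (lk R11) 0) R10abb = true := by decide +kernel

theorem c10baa : allCT (stepf TB1 (lk R11) 0) R10baa = true := by decide +kernel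

theorem c10bab : allCT (stepf TB1 (lk R11) 0) R10bab = true := by decide +kernel

theorem c10bba : allCT (stepf TB1 (lk R11) 0) R10bba = true := by decide +kernel

theorem c10bbb : allCT (stepf TB1 (lk R11) 0) R10bbb = true := by decide +kernel

theorem c10 : allCT (stepf TB1 (lk R11) 0) R10 = true :=
  (allCT_node (allCT_node (allCT_node c10aaa c10aab) (allCT_node c10aba c10abb)) (allCT_node (allCT_node c10baa c10bab) (allCT_node c10bba c10bbb)))

end Pool.Agent.Gunport
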