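import Pool.Agent.Gunport.Table
import Pool.Agent.Gunport.Data3

namespace Pool.Agent.Gunport

set_option maxRecDepth 100000

theorem c11aa : allCT (stepf TB1 (lk R12) 0) R11aa = true := by decide +kernel

theorem c11ab : allCT (stepf TB1 (lk R12) 0) R11ab = true := by decide +kernel

theorem c11ba : allCT (stepf TB1 (lk R12) 0) R11ba = true := by decide +kernel

theorem c11bb : allCT (stepf TB1 (lk R12) 0) R11bb = true := by decide +kernel

theorem c11 : allCT (stepf TB1 (lk R12) 0) R11 = true :=
  (allCT_node (allCT_node c11aa c11ab) (allCT_node c11ba c11bb))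

end Pool.Agent.Gunport
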