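import Pool.Agent.Gunport.Table
import Pool.Agent.Gunport.Data3
import Pool.Agent.Gunport.Data4
import Pool.Agent.Gunport.Data5

namespace Pool.Agent.Gunport

set_option maxRecDepth 100000

theorem c12a : allCT (stepf TB1 (lk R13) 0) R12a = true := by decide +kernel

theorem c12b : allCT (stepf TB1 (lk R13) 0) R12b = true := by decide +kernel

theorem c12 : allCT (stepf TB1 (lk R13) 0) R12 = true :=
  (allCT_node c12a c12b)

theorem c13aaa : allCT (stepf TB1 (lk R14) 0) R13aaa = true := by decide +kernel

theorem c13aab : allCT (stepf TB1 (lk R14) 0) R13aab = true := by decide +kernel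

theorem c13aba : allCT (stepf TB1 (lk R14) 0) R13aba = true := by decide +kernel

theorem c13abb : allCT (stepf TB1 (lk R14) 0) R13abb = true := by decide +kernel

theorem c13baa : allCT (stepf TB1 (lk R14) 0) R13baa = true := by decide +kernel

theorem c13bab : allCT (stepf TB1 (lk R14) 0) R13bab = true := by decide +kernel

theorem c13bba : allCT (stepf TB1 (lk R14) 0) R13bba = true := by decide +kernel

theorem c13bbb : allCT (stepf TB1 (lk R14) 0) R13bbb = true := by decide +kernel

theorem c13 : allCT (stepf TB1 (lk R14) 0) R13 = true :=
  (allCT_node (allCT_node (allCT_node c13aaa c13aab) (allCT_node c13aba c13abb)) (allCT_node (allCT_node c13baa c13bab) (allCT_node c13bba c13bbb)))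

end Pool.Agent.Gunport
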