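import Pool.Agent.Gunport.Table
import Pool.Agent.Gunport.Data5

namespace Pool.Agent.Gunport

set_option maxRecDepth 100000

theorem c14aa : allCT (stepf TB1 (lk R15) 0) R14aa = true := by decide +kernel

theorem c14ab : allCT (stepf TB1 (lk R15) 0) R14ab = true := by decide +kernel

theorem c14ba : allCT (stepf TB1 (lk R15) 0) R14ba = true := by decide +kernel

theorem c14bb : allCT (stepf TB1 (lk R15) 0) R14bb = true := by decide +kernel

theorem c14 : allCT (stepf TB1 (lk R15) 0) R14 = true :=
  (allCT_node (allCT_node c14aa c14ab) (allCT_node c14ba c14bb))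

theorem c15a : allCT (stepf TB2 (fun _ _ => false) 0) R15a = true := by decide +kernel

theorem c15b : allCT (stepf TB2 (fun _ _ => false) 0) R15b = true := by decide +kernel

theorem c15 : allCT (stepf TB2 (fun _ _ => false) 0) R15 = true :=
  (allCT_node c15a c15b)

end Pool.Agent.Gunport
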