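namespace Pool.Agent.Gunport

/-- the `i`-th hexadecimal digit of `t` -/
noncomputable def nib (t i : Nat) : Nat := Nat.land (Nat.shiftRight t (Nat.mul 4 i)) 15

/-- one branch of the search -/
noncomputable def br (ih : Bool) (t bud : Nat) (rest : Bool) : Bool :=
  Bool.rec (motive := fun _ => Bool) false rest
    (Bool.rec (motive := fun _ => Bool) true ih (Nat.ble t bud))

/-- depth first search through all rows below a given row -/
noncomputable def chk (tbl : Nat) (K : Nat → Nat → Bool) (n : Nat) : Nat → Nat → Nat → Nat → Nat → Bool :=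
  Nat.rec (motive := fun _ => Nat → Nat → Nat → Nat → Nat → Bool)
    (fun q _ bud acc _ =>
      Bool.rec (motive := fun _ => Bool) true
        (K acc (Nat.sub bud (nib tbl (Nat.add (Nat.mul q 64) 45))))
        (Nat.ble (nib tbl (Nat.add (Nat.mul q 64) 45)) bud))
    (fun _ ih q a bud acc m =>
      br (ih (Nat.mul (Nat.land a 7) 8) (Nat.shiftRight a 3)
            (Nat.sub bud (nib tbl (Nat.mul (Nat.add (Nat.mul q 8) (Nat.land a 7)) 8)))
            acc (Nat.mul m 8))
          (nib tbl (Nat.mul (Nat.add (Nat.mul q 8) (Nat.land a 7)) 8)) bud <|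
      br (ih (Nat.add (Nat.mul (Nat.land a 7) 8) 1) (Nat.shiftRight a 3)
            (Nat.sub bud (nib tbl (Nat.add (Nat.mul (Nat.add (Nat.mul q 8) (Nat.land a 7)) 8) 1)))
            (Nat.add acc m) (Nat.mul m 8))
          (nib tbl (Nat.add (Nat.mul (Nat.add (Nat.mul q 8) (Nat.land a 7)) 8) 1)) bud <|
      br (ih (Nat.add (Nat.mul (Nat.land a 7) 8) 2) (Nat.shiftRight a 3)
            (Nat.sub bud (nib tbl (Nat.add (Nat.mul (Nat.add (Nat.mul q 8) (Nat.land a 7)) 8) 2)))
            (Nat.add acc (Nat.mul m 2)) (Nat.mul m 8))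
          (nib tbl (Nat.add (Nat.mul (Nat.add (Nat.mul q 8) (Nat.land a 7)) 8) 2)) bud <|
      br (ih (Nat.add (Nat.mul (Nat.land a 7) 8) 3) (Nat.shiftRight a 3)
            (Nat.sub bud (nib tbl (Nat.add (Nat.mul (Nat.add (Nat.mul q 8) (Nat.land a 7)) 8) 3)))
            (Nat.add acc (Nat.mul m 3)) (Nat.mul m 8))
          (nib tbl (Nat.add (Nat.mul (Nat.add (Nat.mul q 8) (Nat.land a 7)) 8) 3)) bud <|
      br (ih (Nat.add (Nat.mul (Nat.land a 7) 8) 4) (Nat.shiftRight a 3)
            (Nat.sub bud (nib tbl (Nat.add (Nat.mul (Nat.add (Nat.mul q 8) (Nat.land a 7)) 8) 4)))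
            (Nat.add acc (Nat.mul m 4)) (Nat.mul m 8))
          (nib tbl (Nat.add (Nat.mul (Nat.add (Nat.mul q 8) (Nat.land a 7)) 8) 4)) bud true) n

/-- search trees with packed leaves -/
inductive CT where
  | leaf (n : Nat) (A : Nat) : CT
  | node (p : Nat) (l r : CT) : CT

/-- linear search in a packed leaf; the answer is `0` or one more than the value -/
noncomputable def findLeaf (n : Nat) (key : Nat) : Nat → Nat :=
  Nat.rec (motive := fun _ => Nat → Nat)
    (fun _ => 0)
    (fun _ ih A =>
      Bool.rec (motive := fun _ => Nat)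
        (ih (Nat.shiftRight A 48))
        (Nat.add (Nat.land A 15) 1)
        (Nat.beq (Nat.shiftRight (Nat.land A 0xffffffffffff) 4) key)) n

noncomputable def find (key : Nat) (t : CT) : Nat :=
  CT.rec (motive := fun _ => Nat)
    (fun n A => findLeaf n key A)
    (fun p _ _ fl fr => Bool.rec (motive := fun _ => Nat) fr fl (Nat.blt key p)) t

noncomputable def allLeaf (f : Nat → Nat → Bool) (n : Nat) : Nat → Bool :=
  Nat.rec (motive := fun _ => Nat → Bool)
    (fun _ => true)
    (fun _ ih A =>
      Bool.rec (motive := fun _ => Bool) false (ih (Nat.shiftRight A 48))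
        (f (Nat.shiftRight (Nat.land A 0xffffffffffff) 4) (Nat.land A 15))) n

noncomputable def allCT (f : Nat → Nat → Bool) (t : CT) : Bool :=
  CT.rec (motive := fun _ => Bool)
    (fun n A => allLeaf f n A)
    (fun _ _ _ al ar => Bool.rec (motive := fun _ => Bool) false ar al) t

noncomputable def lk (t : CT) (acc bud : Nat) : Bool := Nat.ble (Nat.add bud 1) (find acc t)

/-- the test applied to each record of a row -/
noncomputable def stepf (tbl : Nat) (K : Nat → Nat → Bool) (inc w rho : Nat) : Bool :=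
  chk tbl K 14 45 w (Nat.add rho inc) 0 1

theorem allCT_node {f : Nat → Nat → Bool} {p : Nat} {l r : CT} (h1 : allCT f l = true)
    (h2 : allCT f r = true) : allCT f (CT.node p l r) = true := by
  have e1 : allCT f (CT.node p l r) = Bool.rec (motive := fun _ => Bool) false
      (allCT f r) (allCT f l) := rfl
  rw [e1, h1]
  exact h2

end Pool.Agent.Gunport
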