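import Mathlib
import Pool.Agent.Gunport.Engine

namespace Pool.Agent.Gunport

theorem br_true {ih : Bool} {t bud : ℕ} {rest : Bool} (h : br ih t bud rest = true) :
    (t ≤ bud → ih = true) ∧ rest = true := by
  unfold br at h
  by_cases htb : t ≤ bud
  · have h1 : Nat.ble t bud = true := Nat.ble_eq_true_of_le htb
    rw [h1] at h
    cases ih
    · exact absurd h (by simp)
    · exact ⟨fun _ => rfl, by simpa using h⟩
  · have h1 : Nat.ble t bud = false := by
      cases hb : Nat.ble t bud
      · rfl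
      · exact absurd (Nat.le_of_ble_eq_true hb) htb
    rw [h1] at h
    exact ⟨fun h' => absurd h' htb, by simpa using h⟩

/-- code of the first `n` entries -/
def code : ℕ → (ℕ → ℕ) → ℕ
  | 0, _ => 0
  | n + 1, f => f 0 + 8 * code n (fun j => f (j + 1))

/-- total table cost of the windows of two rows -/
noncomputable def rowS (tbl : ℕ) : ℕ → (ℕ → ℕ) → (ℕ → ℕ) → ℕ → ℕ → ℕ
  | 0, _, _, p, q => nib tbl ((p * 8 + q) * 64 + 45)
  | n + 1, f, g, p, q =>
      nib tbl (((p * 8 + q) * 8 + f 0) * 8 + g 0) +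
        rowS tbl n (fun j => f (j + 1)) (fun j => g (j + 1)) (f 0) (g 0)

theorem land7 (x y : ℕ) (hx : x < 8) : Nat.land (x + 8 * y) 7 = x := by
  have h := Nat.and_two_pow_sub_one_eq_mod (x + 8 * y) 3
  have h2 : Nat.land (x + 8 * y) 7 = (x + 8 * y) &&& 2 ^ 3 - 1 := rfl
  rw [h2, h]
  omega

theorem shr3 (x y : ℕ) (hx : x < 8) : Nat.shiftRight (x + 8 * y) 3 = y := by
  have h2 : Nat.shiftRight (x + 8 * y) 3 = (x + 8 * y) >>> 3 := rfl
  rw [h2, Nat.shiftRight_eq_div_pow]
  omega

theorem chk_sound (tbl : ℕ) (K : ℕ → ℕ → Bool) : ∀ (n : ℕ) (f g : ℕ → ℕ) (p q bud acc m : ℕ),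
    (∀ j, j < n → f j < 8) → (∀ j, j < n → g j < 5) →
    rowS tbl n f g p q ≤ bud →
    chk tbl K n (p * 8 + q) (code n f) bud acc m = true →
    K (acc + m * code n g) (bud - rowS tbl n f g p q) = true := by
  intro n
  induction n with
  | zero =>
    intro f g p q bud acc m _ _ hle h
    have h1 : Nat.ble (nib tbl ((p * 8 + q) * 64 + 45)) bud = true :=
      Nat.ble_eq_true_of_le hle
    have h2 : Bool.rec (motive := fun _ => Bool) true
        (K acc (bud - (nib tbl ((p * 8 + q) * 64 + 45))))
        (Nat.ble (nib tbl ((p * 8 + q) * 64 + 45)) bud) = true := h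
    rw [h1] at h2
    simpa [code, rowS] using h2
  | succ n ih =>
    intro f g p q bud acc m hf hg hle h
    have hf0 : f 0 < 8 := hf 0 (by omega)
    have hg0 : g 0 < 5 := hg 0 (by omega)
    have hf' : ∀ j, j < n → (fun j => f (j + 1)) j < 8 := fun j hj => hf (j + 1) (by omega)
    have hg' : ∀ j, j < n → (fun j => g (j + 1)) j < 5 := fun j hj => hg (j + 1) (by omega)
    have hu : chk tbl K (n + 1) (p * 8 + q) (code (n + 1) f) bud acc m =
      br (chk tbl K n (Nat.mul (Nat.land (code (n + 1) f) 7) 8) (Nat.shiftRight (code (n + 1) f) 3)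
            (Nat.sub bud (nib tbl (Nat.mul (Nat.add (Nat.mul (p * 8 + q) 8) (Nat.land (code (n + 1) f) 7)) 8)))
            acc (Nat.mul m 8))
          (nib tbl (Nat.mul (Nat.add (Nat.mul (p * 8 + q) 8) (Nat.land (code (n + 1) f) 7)) 8)) bud (
      br (chk tbl K n (Nat.add (Nat.mul (Nat.land (code (n + 1) f) 7) 8) 1) (Nat.shiftRight (code (n + 1) f) 3)
            (Nat.sub bud (nib tbl (Nat.add (Nat.mul (Nat.add (Nat.mul (p * 8 + q) 8) (Nat.land (code (n + 1) f) 7)) 8) 1)))
            (Nat.add acc m) (Nat.mul m 8))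
          (nib tbl (Nat.add (Nat.mul (Nat.add (Nat.mul (p * 8 + q) 8) (Nat.land (code (n + 1) f) 7)) 8) 1)) bud (
      br (chk tbl K n (Nat.add (Nat.mul (Nat.land (code (n + 1) f) 7) 8) 2) (Nat.shiftRight (code (n + 1) f) 3)
            (Nat.sub bud (nib tbl (Nat.add (Nat.mul (Nat.add (Nat.mul (p * 8 + q) 8) (Nat.land (code (n + 1) f) 7)) 8) 2)))
            (Nat.add acc (Nat.mul m 2)) (Nat.mul m 8))
          (nib tbl (Nat.add (Nat.mul (Nat.add (Nat.mul (p * 8 + q) 8) (Nat.land (code (n + 1) f) 7)) 8) 2)) bud (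
      br (chk tbl K n (Nat.add (Nat.mul (Nat.land (code (n + 1) f) 7) 8) 3) (Nat.shiftRight (code (n + 1) f) 3)
            (Nat.sub bud (nib tbl (Nat.add (Nat.mul (Nat.add (Nat.mul (p * 8 + q) 8) (Nat.land (code (n + 1) f) 7)) 8) 3)))
            (Nat.add acc (Nat.mul m 3)) (Nat.mul m 8))
          (nib tbl (Nat.add (Nat.mul (Nat.add (Nat.mul (p * 8 + q) 8) (Nat.land (code (n + 1) f) 7)) 8) 3)) bud (
      br (chk tbl K n (Nat.add (Nat.mul (Nat.land (code (n + 1) f) 7) 8) 4) (Nat.shiftRight (code (n + 1) f) 3)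
            (Nat.sub bud (nib tbl (Nat.add (Nat.mul (Nat.add (Nat.mul (p * 8 + q) 8) (Nat.land (code (n + 1) f) 7)) 8) 4)))
            (Nat.add acc (Nat.mul m 4)) (Nat.mul m 8))
          (nib tbl (Nat.add (Nat.mul (Nat.add (Nat.mul (p * 8 + q) 8) (Nat.land (code (n + 1) f) 7)) 8) 4)) bud true)))) := rfl
    rw [hu] at h
    have hl : Nat.land (code (n + 1) f) 7 = f 0 := land7 _ _ hf0
    have hs : Nat.shiftRight (code (n + 1) f) 3 = code n (fun j => f (j + 1)) := shr3 _ _ hf0
    rw [hl, hs] at h
    obtain ⟨h0, h⟩ := br_true h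
    obtain ⟨h1, h⟩ := br_true h
    obtain ⟨h2, h⟩ := br_true h
    obtain ⟨h3, h⟩ := br_true h
    obtain ⟨h4, _⟩ := br_true h
    simp only [Nat.add_eq, Nat.mul_eq, Nat.sub_eq] at h0 h1 h2 h3 h4
    have hr : rowS tbl (n + 1) f g p q = nib tbl (((p * 8 + q) * 8 + f 0) * 8 + g 0) +
        rowS tbl n (fun j => f (j + 1)) (fun j => g (j + 1)) (f 0) (g 0) := rfl
    rw [hr] at hle ⊢
    have key : ∀ b, b < 5 → g 0 = b →
        (nib tbl (((p * 8 + q) * 8 + f 0) * 8 + b) ≤ bud →
          chk tbl K n (f 0 * 8 + b) (code n (fun j => f (j + 1)))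
            (bud - nib tbl (((p * 8 + q) * 8 + f 0) * 8 + b)) (acc + m * b) (m * 8) = true) →
        K (acc + m * code (n + 1) g)
          (bud - (nib tbl (((p * 8 + q) * 8 + f 0) * 8 + g 0) +
            rowS tbl n (fun j => f (j + 1)) (fun j => g (j + 1)) (f 0) (g 0))) = true := by
      intro b _ hgb hb
      rw [hgb] at hle ⊢
      have hb1 := hb (by omega)
      have := ih (fun j => f (j + 1)) (fun j => g (j + 1)) (f 0) b
        (bud - nib tbl (((p * 8 + q) * 8 + f 0) * 8 + b)) (acc + m * b) (m * 8) hf' hg'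
        (by omega) hb1
      have e1 : acc + m * code (n + 1) g = acc + m * b + m * 8 * code n (fun j => g (j + 1)) := by
        have : code (n + 1) g = g 0 + 8 * code n (fun j => g (j + 1)) := rfl
        rw [this, hgb]; ring
      rw [e1, ← Nat.sub_sub]
      exact this
    have hcases : g 0 = 0 ∨ g 0 = 1 ∨ g 0 = 2 ∨ g 0 = 3 ∨ g 0 = 4 := by omega
    rcases hcases with hc | hc | hc | hc | hc
    · exact key 0 (by omega) hc (by simpa using h0)
    · exact key 1 (by omega) hc (by simpa using h1)
    · exact key 2 (by omega) hc (by simpa using h2)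
    · exact key 3 (by omega) hc (by simpa using h3)
    · exact key 4 (by omega) hc (by simpa using h4)

theorem allLeaf_find (f : ℕ → ℕ → Bool) (key v : ℕ) : ∀ (n A : ℕ),
    allLeaf f n A = true → findLeaf n key A = v + 1 → f key v = true := by
  intro n
  induction n with
  | zero =>
    intro A _ h
    exact absurd h (by simp [findLeaf])
  | succ n ih =>
    intro A h1 h2
    have e1 : allLeaf f (n + 1) A = Bool.rec (motive := fun _ => Bool) false
        (allLeaf f n (Nat.shiftRight A 48))
        (f (Nat.shiftRight (Nat.land A 0xffffffffffff) 4) (Nat.land A 15)) := rfl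
    have e2 : findLeaf (n + 1) key A = Bool.rec (motive := fun _ => ℕ)
        (findLeaf n key (Nat.shiftRight A 48))
        (Nat.add (Nat.land A 15) 1)
        (Nat.beq (Nat.shiftRight (Nat.land A 0xffffffffffff) 4) key) := rfl
    rw [e1] at h1
    rw [e2] at h2
    cases hf : f (Nat.shiftRight (Nat.land A 0xffffffffffff) 4) (Nat.land A 15) with
    | false => rw [hf] at h1; exact absurd h1 (by simp)
    | true =>
      rw [hf] at h1
      cases hk : Nat.beq (Nat.shiftRight (Nat.land A 0xffffffffffff) 4) key with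
      | false =>
        rw [hk] at h2
        exact ih _ h1 h2
      | true =>
        rw [hk] at h2
        have hk' := Nat.eq_of_beq_eq_true hk
        have hv : Nat.land A 15 = v := by
          have : Nat.land A 15 + 1 = v + 1 := h2
          omega
        rw [hk', hv] at hf
        exact hf

theorem allCT_find (f : ℕ → ℕ → Bool) (key v : ℕ) (t : CT)
    (h1 : allCT f t = true) (h2 : find key t = v + 1) : f key v = true := by
  induction t with
  | leaf n A => exact allLeaf_find f key v n A h1 h2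
  | node p l r ihl ihr =>
    have e1 : allCT f (CT.node p l r) = Bool.rec (motive := fun _ => Bool) false
        (allCT f r) (allCT f l) := rfl
    have e2 : find key (CT.node p l r) = Bool.rec (motive := fun _ => ℕ) (find key r) (find key l)
        (Nat.blt key p) := rfl
    rw [e1] at h1
    rw [e2] at h2
    cases hl : allCT f l with
    | false => rw [hl] at h1; exact absurd h1 (by simp)
    | true =>
      rw [hl] at h1
      cases hb : Nat.blt key p with
      | true => rw [hb] at h2; exact ihl hl h2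
      | false => rw [hb] at h2; exact ihr h1 h2

theorem lk_true {t : CT} {acc bud : ℕ} (h : lk t acc bud = true) :
    ∃ v, find acc t = v + 1 ∧ bud ≤ v := by
  unfold lk at h
  have h1 := Nat.le_of_ble_eq_true h
  have h2 : bud + 1 ≤ find acc t := h1
  exact ⟨find acc t - 1, by omega, by omega⟩

end Pool.Agent.Gunport
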