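import Mathlib
import Pool.Agent.Gunport.Sound
import Pool.Agent.Gunport.Table

namespace Pool.Agent.Gunport

/-- horizontally adjacent labels that may occur together -/
def okH (x y : ℕ) : Bool := ((x == 1) == (y == 2)) && !(x == 0 && y == 0)

/-- vertically adjacent labels that may occur together -/
def okV (x y : ℕ) : Bool := ((x == 3) == (y == 4)) && !(x == 0 && y == 0)

def isH (x : ℕ) : ℕ := if x = 0 then 1 else 0

/-- cost inside a row -/
def nc (x y : ℕ) : ℕ :=
  (if y = 1 ∧ x ≠ 0 ∧ x ≠ 5 then 1 else 0) + (if x = 2 ∧ y ≠ 0 ∧ y ≠ 5 then 1 else 0)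

def ddv (a b : ℕ) : ℕ := if a ≠ 0 ∧ b ≠ 0 ∧ a ≠ 3 then 1 else 0

def ddh (a b : ℕ) : ℕ := if a ≠ 0 ∧ b ≠ 0 ∧ a ≠ 1 then 1 else 0

/-- cost between two rows -/
def ec (p q a b : ℕ) : ℕ :=
  if p = 5 ∧ q = 5 ∧ a = 5 ∧ b = 5 then 0
  else if p = 5 ∧ q = 5 ∧ a = 5 then (if b = 0 then 0 else 2)
  else if p = 5 ∧ q = 5 ∧ b = 5 then (if a = 0 then 0 else 2)
  else if p = 5 ∧ a = 5 ∧ b = 5 then (if q = 0 then 0 else 2)
  else if q = 5 ∧ a = 5 ∧ b = 5 then (if p = 0 then 0 else 2)
  else if p = 5 ∧ q = 5 then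
    ddv a b + (if b = 3 then 1 - isH a else 0) + (if a = 4 then 1 - isH b else 0)
  else if a = 5 ∧ b = 5 then ddv p q
  else if p = 5 ∧ a = 5 then ddh q b
  else if q = 5 ∧ b = 5 then ddh p a
  else (if b = 3 then 1 - isH a else 0) + (if a = 4 then 1 - isH b else 0)
    + (if q = 1 then 1 - isH p - isH a else 0) + (if p = 1 then 1 - isH q - isH b else 0)
    + (if a = 3 then 1 - isH p - isH q else 0) + (if p = 3 then 1 - isH a - isH b else 0)

/-- table cost of a window -/
noncomputable def wc (p q a b : ℕ) : ℕ := nib TB1 (((p * 8 + q) * 8 + a) * 8 + b)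

noncomputable def wc2 (p q a b : ℕ) : ℕ := nib TB2 (((p * 8 + q) * 8 + a) * 8 + b)

/-- a window is either inside, on one side, or at one corner -/
def shape (p q a b : ℕ) : Bool :=
  ((p == 5) == (q == 5) && (a == 5) == (b == 5) || (p == 5) == (a == 5) && (q == 5) == (b == 5)) ||
  (p == 5 && q == 5 && a == 5) || (p == 5 && q == 5 && b == 5) || (p == 5 && a == 5 && b == 5) ||
  (q == 5 && a == 5 && b == 5)

/-- a window that may occur -/
def wok (p q a b : ℕ) : Bool :=
  okH p a && okH q b && okV p q && okV a b && shape p q a b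

theorem wc_eq : ∀ p < 6, ∀ q < 6, ∀ a < 6, ∀ b < 6, wok p q a b = true →
    wc p q a b = ec p q a b + nc q b := by
  decide +kernel

theorem wc2_eq : ∀ p < 6, ∀ q < 6, ∀ a < 6, ∀ b < 6,
    (wok p q a b && okV q 5 && okV b 5 && !(q == 5 && b == 5)) = true →
    wc2 p q a b = wc p q a b + wc q 5 b 5 := by
  decide +kernel

/-- exchange of top and bottom -/
def sw (x : ℕ) : ℕ := if x = 3 then 4 else if x = 4 then 3 else x

theorem ec_sw : ∀ p < 6, ∀ q < 6, ∀ a < 6, ∀ b < 6, wok p q a b = true →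
    ec (sw q) (sw p) (sw b) (sw a) = ec p q a b := by
  decide +kernel

theorem nc_sw : ∀ x < 6, ∀ y < 6, nc (sw x) (sw y) = nc x y := by
  decide +kernel

theorem okH_sw : ∀ x < 6, ∀ y < 6, okH (sw x) (sw y) = okH x y := by
  decide +kernel

theorem okV_sw : ∀ x < 6, ∀ y < 6, okV (sw y) (sw x) = okV x y := by
  decide +kernel

theorem sw_lt {x : ℕ} (h : x < 5) : sw x < 5 := by
  unfold sw; split_ifs <;> omega

theorem sw_lt6 {x : ℕ} (h : x < 6) : sw x < 6 := by
  unfold sw; split_ifs <;> omega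

/-- doubled weights of the sides of a cell -/
def sR (x : ℕ) : ℤ := if x = 0 then -2 else if x = 2 then 2 else if x = 3 then 1 else if x = 4 then 1 else 0
def sL (x : ℕ) : ℤ := if x = 0 then -2 else if x = 1 then 2 else if x = 3 then 1 else if x = 4 then 1 else 0
def sT (x : ℕ) : ℤ := if x = 0 then -2 else if x = 1 then 1 else if x = 2 then 1 else if x = 3 then 2 else 0
def sB (x : ℕ) : ℤ := if x = 0 then -2 else if x = 1 then 1 else if x = 2 then 1 else if x = 4 then 2 else 0
def qq (x : ℕ) : ℤ := if x = 0 then -8 else if x = 5 then 0 else 4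

def kv (x : ℕ) : ℤ := if x = 0 then -1 else if x = 3 then 0 else if x = 5 then 0 else 1
def kh (x : ℕ) : ℤ := if x = 0 then -1 else if x = 1 then 0 else if x = 5 then 0 else 1

/-- potential of a horizontal pair -/
def PP (x y : ℕ) : ℤ :=
  if x = 5 then kv y else if y = 5 then kv x else
    (if y = 3 then 1 - 2 * (isH x : ℤ) else 0) + (if x = 3 then 1 - 2 * (isH y : ℤ) else 0)

/-- potential of a vertical pair -/
def QQ (x y : ℕ) : ℤ :=
  if x = 5 then kh y else if y = 5 then kh x else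
    (if y = 1 then 1 - 2 * (isH x : ℤ) else 0) + (if x = 1 then 1 - 2 * (isH y : ℤ) else 0)

def isX (x : ℕ) : ℕ := if x = 5 then 1 else 0

theorem win_id : ∀ p < 6, ∀ q < 6, ∀ a < 6, ∀ b < 6, wok p q a b = true →
    2 * ((ec p q a b + nc q b : ℕ) : ℤ) = qq b + (sR q - sR b) + (sB a - sB b) + (PP p a - PP q b)
      + (QQ p q - QQ a b) + (if isX p + isX q + isX a + isX b = 3 then 2 else 0) := by
  decide +kernel

end Pool.Agent.Gunport
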