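import Mathlib
import Pool.Agent.Gunport.Window

namespace Pool.Agent.Gunport

/-- a labelling of the bordered `16 × 14` board that comes from a gunport configuration -/
structure Good (lab : ℕ → ℕ → ℕ) : Prop where
  top : ∀ j, lab 0 j = 5
  bot : ∀ j, lab 17 j = 5
  left : ∀ i, lab i 0 = 5
  right : ∀ i, lab i 15 = 5
  lt : ∀ i j, i < 16 → j < 14 → lab (i + 1) (j + 1) < 5
  hor : ∀ i j, i < 18 → j < 15 → okH (lab i j) (lab i (j + 1)) = true
  ver : ∀ i j, i < 17 → j < 16 → okV (lab i j) (lab (i + 1) j) = true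

theorem Good.five {lab : ℕ → ℕ → ℕ} (h : Good lab) (i j : ℕ) (hi : i < 18) (hj : j < 16) :
    lab i j = 5 ∨ (lab i j < 5 ∧ 0 < i ∧ i < 17 ∧ 0 < j ∧ j < 15) := by
  rcases Nat.eq_zero_or_pos i with h0 | h0
  · left; rw [h0]; exact h.top j
  rcases Nat.eq_zero_or_pos j with h1 | h1
  · left; rw [h1]; exact h.left i
  by_cases h2 : i = 17
  · left; rw [h2]; exact h.bot j
  by_cases h3 : j = 15
  · left; rw [h3]; exact h.right i
  right
  have := h.lt (i - 1) (j - 1) (by omega) (by omega)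
  rw [show i - 1 + 1 = i by omega, show j - 1 + 1 = j by omega] at this
  exact ⟨this, by omega, by omega, by omega, by omega⟩

theorem Good.lt6 {lab : ℕ → ℕ → ℕ} (h : Good lab) (i j : ℕ) (hi : i < 18) (hj : j < 16) :
    lab i j < 6 := by
  rcases h.five i j hi hj with h | h <;> omega

theorem Good.beq5 {lab : ℕ → ℕ → ℕ} (h : Good lab) (i j : ℕ) (hi : i < 18) (hj : j < 16) :
    (lab i j == 5) = decide (i = 0 ∨ i = 17 ∨ j = 0 ∨ j = 15) := by
  by_cases hb : i = 0 ∨ i = 17 ∨ j = 0 ∨ j = 15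
  · have : lab i j = 5 := by
      rcases hb with rfl | rfl | rfl | rfl
      · exact h.top j
      · exact h.bot j
      · exact h.left i
      · exact h.right i
    simp [this, hb]
  · have h5 : lab i j ≠ 5 := by
      have := h.lt (i - 1) (j - 1) (by omega) (by omega)
      rw [show i - 1 + 1 = i by omega, show j - 1 + 1 = j by omega] at this
      omega
    simp [h5, hb]

theorem Good.shape {lab : ℕ → ℕ → ℕ} (h : Good lab) (i j : ℕ) (hi : i < 17) (hj : j < 15) :
    shape (lab i j) (lab (i + 1) j) (lab i (j + 1)) (lab (i + 1) (j + 1)) = true := by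
  unfold Gunport.shape
  rw [h.beq5 i j (by omega) (by omega), h.beq5 (i + 1) j (by omega) (by omega),
    h.beq5 i (j + 1) (by omega) (by omega), h.beq5 (i + 1) (j + 1) (by omega) (by omega)]
  by_cases h1 : i = 0 <;> by_cases h2 : i = 16 <;> by_cases h3 : j = 0 <;> by_cases h4 : j = 14 <;>
    simp [h1, h2, h3, h4] <;> omega

theorem Good.wok {lab : ℕ → ℕ → ℕ} (h : Good lab) (i j : ℕ) (hi : i < 17) (hj : j < 15) :
    wok (lab i j) (lab (i + 1) j) (lab i (j + 1)) (lab (i + 1) (j + 1)) = true := by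
  unfold Gunport.wok
  rw [h.hor i j (by omega) hj, h.hor (i + 1) j (by omega) hj, h.ver i j hi (by omega),
    h.ver i (j + 1) hi (by omega), h.shape i j hi hj]
  rfl

noncomputable def Rc (lab : ℕ → ℕ → ℕ) (i : ℕ) : ℕ :=
  ∑ j ∈ Finset.range 15, wc (lab i j) (lab (i + 1) j) (lab i (j + 1)) (lab (i + 1) (j + 1))

def AA (lab : ℕ → ℕ → ℕ) (i : ℕ) : ℕ :=
  ∑ j ∈ Finset.range 15, ec (lab i j) (lab (i + 1) j) (lab i (j + 1)) (lab (i + 1) (j + 1))

def NN (lab : ℕ → ℕ → ℕ) (i : ℕ) : ℕ :=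
  ∑ j ∈ Finset.range 15, nc (lab i j) (lab i (j + 1))

noncomputable def VV (lab : ℕ → ℕ → ℕ) (k : ℕ) : ℕ := ∑ i ∈ Finset.range k, Rc lab i

theorem Good.Rc_eq {lab : ℕ → ℕ → ℕ} (h : Good lab) (i : ℕ) (hi : i < 17) :
    Rc lab i = AA lab i + NN lab (i + 1) := by
  unfold Rc AA NN
  rw [← Finset.sum_add_distrib]
  apply Finset.sum_congr rfl
  intro j hj
  have hj' := Finset.mem_range.1 hj
  exact wc_eq _ (h.lt6 _ _ (by omega) (by omega)) _ (h.lt6 _ _ (by omega) (by omega)) _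
    (h.lt6 _ _ (by omega) (by omega)) _ (h.lt6 _ _ (by omega) (by omega)) (h.wok i j hi hj')

def flip (lab : ℕ → ℕ → ℕ) : ℕ → ℕ → ℕ := fun i j => sw (lab (17 - i) j)

theorem Good.flip {lab : ℕ → ℕ → ℕ} (h : Good lab) : Good (flip lab) := by
  constructor
  · intro j
    change sw (lab 17 j) = 5
    rw [h.bot j]; rfl
  · intro j
    change sw (lab 0 j) = 5
    rw [h.top j]; rfl
  · intro i
    change sw (lab (17 - i) 0) = 5
    rw [h.left]; rfl
  · intro i
    change sw (lab (17 - i) 15) = 5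
    rw [h.right]; rfl
  · intro i j hi hj
    change sw (lab (17 - (i + 1)) (j + 1)) < 5
    rw [show 17 - (i + 1) = (15 - i) + 1 by omega]
    exact sw_lt (h.lt _ _ (by omega) hj)
  · intro i j hi hj
    change okH (sw (lab (17 - i) j)) (sw (lab (17 - i) (j + 1))) = true
    rw [okH_sw _ (h.lt6 _ _ (by omega) (by omega)) _ (h.lt6 _ _ (by omega) (by omega))]
    exact h.hor _ _ (by omega) hj
  · intro i j hi hj
    change okV (sw (lab (17 - i) j)) (sw (lab (17 - (i + 1)) j)) = true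
    rw [okV_sw _ (h.lt6 _ _ (by omega) (by omega)) _ (h.lt6 _ _ (by omega) (by omega))]
    have := h.ver (17 - (i + 1)) j (by omega) hj
    rw [show 17 - (i + 1) + 1 = 17 - i by omega] at this
    exact this

theorem AA_flip {lab : ℕ → ℕ → ℕ} (h : Good lab) (i : ℕ) (hi : i < 17) :
    AA (flip lab) i = AA lab (16 - i) := by
  unfold AA
  apply Finset.sum_congr rfl
  intro j hj
  have hj' := Finset.mem_range.1 hj
  change ec (sw (lab (17 - i) j)) (sw (lab (17 - (i + 1)) j)) (sw (lab (17 - i) (j + 1)))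
    (sw (lab (17 - (i + 1)) (j + 1))) = _
  rw [show 17 - (i + 1) = 16 - i by omega, show 17 - i = (16 - i) + 1 by omega]
  exact ec_sw _ (h.lt6 _ _ (by omega) (by omega)) _ (h.lt6 _ _ (by omega) (by omega)) _
    (h.lt6 _ _ (by omega) (by omega)) _ (h.lt6 _ _ (by omega) (by omega))
    (h.wok (16 - i) j (by omega) hj')

theorem NN_flip {lab : ℕ → ℕ → ℕ} (h : Good lab) (i : ℕ) :
    NN (flip lab) i = NN lab (17 - i) := by
  unfold NN
  apply Finset.sum_congr rfl
  intro j hj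
  have hj' := Finset.mem_range.1 hj
  exact nc_sw _ (h.lt6 _ _ (by omega) (by omega)) _ (h.lt6 _ _ (by omega) (by omega))

theorem half {lab : ℕ → ℕ → ℕ} (h : Good lab) : VV lab 8 + VV (flip lab) 8 ≤ VV lab 17 := by
  unfold VV
  simp only [Finset.sum_range_succ, Finset.sum_range_zero]
  rw [h.Rc_eq 0 (by omega), h.Rc_eq 1 (by omega), h.Rc_eq 2 (by omega), h.Rc_eq 3 (by omega),
    h.Rc_eq 4 (by omega), h.Rc_eq 5 (by omega), h.Rc_eq 6 (by omega), h.Rc_eq 7 (by omega),
    h.Rc_eq 8 (by omega), h.Rc_eq 9 (by omega), h.Rc_eq 10 (by omega), h.Rc_eq 11 (by omega),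
    h.Rc_eq 12 (by omega), h.Rc_eq 13 (by omega), h.Rc_eq 14 (by omega), h.Rc_eq 15 (by omega),
    h.Rc_eq 16 (by omega)]
  rw [h.flip.Rc_eq 0 (by omega), h.flip.Rc_eq 1 (by omega), h.flip.Rc_eq 2 (by omega),
    h.flip.Rc_eq 3 (by omega), h.flip.Rc_eq 4 (by omega), h.flip.Rc_eq 5 (by omega),
    h.flip.Rc_eq 6 (by omega), h.flip.Rc_eq 7 (by omega)]
  rw [AA_flip h 0 (by omega), AA_flip h 1 (by omega), AA_flip h 2 (by omega),
    AA_flip h 3 (by omega), AA_flip h 4 (by omega), AA_flip h 5 (by omega),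
    AA_flip h 6 (by omega), AA_flip h 7 (by omega)]
  simp only [NN_flip h]
  norm_num
  omega

theorem rowS_eq (tbl : ℕ) : ∀ (n : ℕ) (F G : ℕ → ℕ),
    rowS tbl n (fun j => F (j + 1)) (fun j => G (j + 1)) (F 0) (G 0) =
      (∑ j ∈ Finset.range n, nib tbl (((F j * 8 + G j) * 8 + F (j + 1)) * 8 + G (j + 1))) +
        nib tbl ((F n * 8 + G n) * 64 + 45) := by
  intro n
  induction n with
  | zero => intro F G; simp [rowS]
  | succ n ih =>
    intro F G
    have := ih (fun j => F (j + 1)) (fun j => G (j + 1))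
    have e : rowS tbl (n + 1) (fun j => F (j + 1)) (fun j => G (j + 1)) (F 0) (G 0) =
      nib tbl (((F 0 * 8 + G 0) * 8 + F 1) * 8 + G 1) +
        rowS tbl n (fun j => F (j + 1 + 1)) (fun j => G (j + 1 + 1)) (F (0 + 1)) (G (0 + 1)) := rfl
    rw [e, this, Finset.sum_range_succ']
    ring

theorem Good.rowS {lab : ℕ → ℕ → ℕ} (h : Good lab) (k : ℕ) :
    rowS TB1 14 (fun j => lab k (j + 1)) (fun j => lab (k + 1) (j + 1)) 5 5 = Rc lab k := by
  have := rowS_eq TB1 14 (lab k) (lab (k + 1))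
  rw [h.left, h.left] at this
  rw [this]
  unfold Rc
  rw [Finset.sum_range_succ (n := 14)]
  unfold wc
  rw [h.right k, h.right (k + 1)]
  congr 2
  ring

theorem Good.rowS2 {lab : ℕ → ℕ → ℕ} (h : Good lab) :
    Gunport.rowS TB2 14 (fun j => lab 15 (j + 1)) (fun j => lab (15 + 1) (j + 1)) 5 5 =
      Rc lab 15 + Rc lab 16 := by
  have := rowS_eq TB2 14 (lab 15) (lab (15 + 1))
  rw [h.left, h.left] at this
  rw [this]
  have e : nib TB2 ((lab 15 14 * 8 + lab (15 + 1) 14) * 64 + 45) =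
      wc2 (lab 15 14) (lab (15 + 1) 14) (lab 15 (14 + 1)) (lab (15 + 1) (14 + 1)) := by
    unfold wc2
    rw [show lab 15 (14 + 1) = 5 from h.right 15, show lab (15 + 1) (14 + 1) = 5 from h.right 16]
    congr 1
    ring
  rw [e]
  unfold Rc
  rw [← Finset.sum_add_distrib]
  have e2 : ∀ j ∈ Finset.range 15,
      wc (lab 15 j) (lab (15 + 1) j) (lab 15 (j + 1)) (lab (15 + 1) (j + 1)) +
      wc (lab 16 j) (lab (16 + 1) j) (lab 16 (j + 1)) (lab (16 + 1) (j + 1)) =
      wc2 (lab 15 j) (lab (15 + 1) j) (lab 15 (j + 1)) (lab (15 + 1) (j + 1)) := by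
    intro j hj
    have hj' := Finset.mem_range.1 hj
    rw [show lab (16 + 1) j = 5 from h.bot j, show lab (16 + 1) (j + 1) = 5 from h.bot (j + 1)]
    symm
    apply wc2_eq _ (h.lt6 _ _ (by omega) (by omega)) _ (h.lt6 _ _ (by omega) (by omega)) _
      (h.lt6 _ _ (by omega) (by omega)) _ (h.lt6 _ _ (by omega) (by omega))
    have v1 := h.ver 16 j (by omega) (by omega)
    have v2 := h.ver 16 (j + 1) (by omega) (by omega)
    rw [show lab (16 + 1) j = 5 from h.bot j] at v1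
    rw [show lab (16 + 1) (j + 1) = 5 from h.bot (j + 1)] at v2
    rw [h.wok 15 j (by omega) hj', v1, v2]
    have b1 := h.beq5 (15 + 1) j (by omega) (by omega)
    have b2 := h.beq5 (15 + 1) (j + 1) (by omega) (by omega)
    rw [b1, b2]
    simp
    omega
  rw [Finset.sum_congr rfl e2, Finset.sum_range_succ (n := 14)]
  rfl

/-- the state after `k` rows is listed -/
def Reach (lab : ℕ → ℕ → ℕ) (k : ℕ) (t : CT) (lim : ℕ) : Prop :=
  ∃ v, find (code 14 (fun j => lab k (j + 1))) t = v + 1 ∧ lim ≤ VV lab k + v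

theorem VV_succ (lab : ℕ → ℕ → ℕ) (k : ℕ) : VV lab (k + 1) = VV lab k + Rc lab k := by
  unfold VV
  rw [Finset.sum_range_succ]

theorem e45 : (5 * 8 + 5 : ℕ) = 45 := by norm_num

theorem Good.step {lab : ℕ → ℕ → ℕ} (h : Good lab) {k : ℕ} (hk : k < 16) {t t' : CT}
    {lim inc : ℕ} (hc : allCT (stepf TB1 (lk t') inc) t = true) (hr : Reach lab k t lim)
    (hV : VV lab (k + 1) ≤ lim + inc) : Reach lab (k + 1) t' (lim + inc) := by
  obtain ⟨v, hv1, hv2⟩ := hr
  have h1 := allCT_find _ _ v t hc hv1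
  have h2 : chk TB1 (lk t') 14 (5 * 8 + 5) (code 14 (fun j => lab k (j + 1))) (v + inc) 0 1
      = true := by
    unfold stepf at h1
    rw [Nat.add_eq] at h1
    rw [e45]
    exact h1
  rw [VV_succ] at hV
  have h3 := chk_sound TB1 (lk t') 14 (fun j => lab k (j + 1)) (fun j => lab (k + 1) (j + 1))
    5 5 (v + inc) 0 1
    (fun j hj => by have := h.lt6 k (j + 1) (by omega) (by omega); omega)
    (fun j hj => h.lt k j (by omega) hj)
    (by rw [h.rowS]; omega) h2
  rw [h.rowS, Nat.zero_add, Nat.one_mul] at h3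
  obtain ⟨v', h4, h5⟩ := lk_true h3
  refine ⟨v', h4, ?_⟩
  · rw [VV_succ]; omega

theorem Good.first {lab : ℕ → ℕ → ℕ} (h : Good lab) {t' : CT}
    (hc : stepf TB1 (lk t') 0 XS 4 = true) (hV : VV lab 1 ≤ 4) : Reach lab 1 t' 4 := by
  have hX : code 14 (fun j => lab 0 (j + 1)) = XS := by
    have : (fun j => lab 0 (j + 1)) = fun _ => 5 := by
      funext j; exact h.top _
    rw [this]
    rfl
  have h2 : chk TB1 (lk t') 14 (5 * 8 + 5) (code 14 (fun j => lab 0 (j + 1))) 4 0 1 = true := by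
    unfold stepf at hc
    rw [Nat.add_eq, Nat.add_zero] at hc
    rw [hX, e45]; exact hc
  have hV1 : VV lab 1 = Rc lab 0 := by unfold VV; simp
  have h3 := chk_sound TB1 (lk t') 14 (fun j => lab 0 (j + 1)) (fun j => lab (0 + 1) (j + 1))
    5 5 4 0 1
    (fun j hj => by have := h.lt6 0 (j + 1) (by omega) (by omega); omega)
    (fun j hj => h.lt 0 j (by omega) hj)
    (by rw [h.rowS, ← hV1]; exact hV) h2
  rw [h.rowS, Nat.zero_add, Nat.one_mul] at h3
  obtain ⟨v', h4, h5⟩ := lk_true h3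
  refine ⟨v', h4, ?_⟩
  · rw [hV1] at hV ⊢; omega

theorem Good.last {lab : ℕ → ℕ → ℕ} (h : Good lab) {t : CT}
    (hc : allCT (stepf TB2 (fun _ _ => false) 0) t = true) (hr : Reach lab 15 t 8)
    (hV : VV lab 17 ≤ 8) : False := by
  obtain ⟨v, hv1, hv2⟩ := hr
  have h1 := allCT_find _ _ v t hc hv1
  have h2 : chk TB2 (fun _ _ => false) 14 (5 * 8 + 5) (code 14 (fun j => lab 15 (j + 1))) v 0 1
      = true := by
    unfold stepf at h1
    rw [Nat.add_eq, Nat.add_zero] at h1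
    rw [e45]
    exact h1
  rw [VV_succ, VV_succ] at hV
  have h3 := chk_sound TB2 (fun _ _ => false) 14 (fun j => lab 15 (j + 1))
    (fun j => lab (15 + 1) (j + 1)) 5 5 v 0 1
    (fun j hj => by have := h.lt6 15 (j + 1) (by omega) (by omega); omega)
    (fun j hj => h.lt 15 j (by omega) hj)
    (by rw [h.rowS2]; omega) h2
  exact absurd h3 (by simp)

end Pool.Agent.Gunport
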