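import Mathlib
import Pool.Agent.Gunport.Grid
import Pool.Agent.Gunport.Check1
import Pool.Agent.Gunport.Check2
import Pool.Agent.Gunport.Check3
import Pool.Agent.Gunport.Check4
import Pool.Agent.Gunport.Check5

namespace Pool.Agent.Gunport

theorem VV_mono (lab : ℕ → ℕ → ℕ) {a b : ℕ} (h : a ≤ b) : VV lab a ≤ VV lab b := by
  unfold VV
  exact Finset.sum_le_sum_of_subset (Finset.range_mono h)

theorem total_flip {lab : ℕ → ℕ → ℕ} (h : Good lab) : VV (flip lab) 17 = VV lab 17 := by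
  unfold VV
  simp only [Finset.sum_range_succ, Finset.sum_range_zero]
  rw [h.Rc_eq 0 (by omega), h.Rc_eq 1 (by omega), h.Rc_eq 2 (by omega), h.Rc_eq 3 (by omega),
    h.Rc_eq 4 (by omega), h.Rc_eq 5 (by omega), h.Rc_eq 6 (by omega), h.Rc_eq 7 (by omega),
    h.Rc_eq 8 (by omega), h.Rc_eq 9 (by omega), h.Rc_eq 10 (by omega), h.Rc_eq 11 (by omega),
    h.Rc_eq 12 (by omega), h.Rc_eq 13 (by omega), h.Rc_eq 14 (by omega), h.Rc_eq 15 (by omega),
    h.Rc_eq 16 (by omega)]
  rw [h.flip.Rc_eq 0 (by omega), h.flip.Rc_eq 1 (by omega), h.flip.Rc_eq 2 (by omega),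
    h.flip.Rc_eq 3 (by omega), h.flip.Rc_eq 4 (by omega), h.flip.Rc_eq 5 (by omega),
    h.flip.Rc_eq 6 (by omega), h.flip.Rc_eq 7 (by omega), h.flip.Rc_eq 8 (by omega),
    h.flip.Rc_eq 9 (by omega), h.flip.Rc_eq 10 (by omega), h.flip.Rc_eq 11 (by omega),
    h.flip.Rc_eq 12 (by omega), h.flip.Rc_eq 13 (by omega), h.flip.Rc_eq 14 (by omega),
    h.flip.Rc_eq 15 (by omega), h.flip.Rc_eq 16 (by omega)]
  rw [AA_flip h 0 (by omega), AA_flip h 1 (by omega), AA_flip h 2 (by omega),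
    AA_flip h 3 (by omega), AA_flip h 4 (by omega), AA_flip h 5 (by omega),
    AA_flip h 6 (by omega), AA_flip h 7 (by omega), AA_flip h 8 (by omega),
    AA_flip h 9 (by omega), AA_flip h 10 (by omega), AA_flip h 11 (by omega),
    AA_flip h 12 (by omega), AA_flip h 13 (by omega), AA_flip h 14 (by omega),
    AA_flip h 15 (by omega), AA_flip h 16 (by omega)]
  simp only [NN_flip h]
  have e0 : NN lab 0 = 0 := by
    unfold NN
    apply Finset.sum_eq_zero
    intro j _
    rw [h.top, h.top]; rfl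
  have e17 : NN lab 17 = 0 := by
    unfold NN
    apply Finset.sum_eq_zero
    intro j _
    rw [h.bot, h.bot]; rfl
  norm_num [e0, e17]
  omega

theorem aux {lab : ℕ → ℕ → ℕ} (h : Good lab) (h8 : VV lab 8 ≤ 4) (h17 : VV lab 17 ≤ 8) :
    False := by
  have m : ∀ k, k ≤ 8 → VV lab k ≤ 4 := fun k hk => (VV_mono lab hk).trans h8
  have m' : ∀ k, k ≤ 17 → VV lab k ≤ 8 := fun k hk => (VV_mono lab hk).trans h17
  have r1 : Reach lab 1 R1 4 := h.first c0 (m 1 (by omega))
  have r2 : Reach lab 2 R2 4 := h.step (by omega) c1 r1 (m 2 (by omega))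
  have r3 : Reach lab 3 R3 4 := h.step (by omega) c2 r2 (m 3 (by omega))
  have r4 : Reach lab 4 R4 4 := h.step (by omega) c3 r3 (m 4 (by omega))
  have r5 : Reach lab 5 R5 4 := h.step (by omega) c4 r4 (m 5 (by omega))
  have r6 : Reach lab 6 R6 4 := h.step (by omega) c5 r5 (m 6 (by omega))
  have r7 : Reach lab 7 R7 4 := h.step (by omega) c6 r6 (m 7 (by omega))
  have r8 : Reach lab 8 R8 4 := h.step (by omega) c7 r7 (m 8 (by omega))
  have r9 : Reach lab 9 R9 8 := h.step (by omega) c8 r8 (m' 9 (by omega))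
  have r10 : Reach lab 10 R10 8 := h.step (by omega) c9 r9 (m' 10 (by omega))
  have r11 : Reach lab 11 R11 8 := h.step (by omega) c10 r10 (m' 11 (by omega))
  have r12 : Reach lab 12 R12 8 := h.step (by omega) c11 r11 (m' 12 (by omega))
  have r13 : Reach lab 13 R13 8 := h.step (by omega) c12 r12 (m' 13 (by omega))
  have r14 : Reach lab 14 R14 8 := h.step (by omega) c13 r13 (m' 14 (by omega))
  have r15 : Reach lab 15 R15 8 := h.step (by omega) c14 r14 (m' 15 (by omega))
  exact h.last c15 r15 h17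

theorem no_good {lab : ℕ → ℕ → ℕ} (h : Good lab) : 8 < VV lab 17 := by
  by_contra hc
  have hc' : VV lab 17 ≤ 8 := by omega
  have hh := half h
  by_cases h8 : VV lab 8 ≤ 4
  · exact aux h h8 hc'
  · exact aux h.flip (by omega) (by rw [total_flip h]; exact hc')

end Pool.Agent.Gunport
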