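import Mathlib
import Pool.Agent.Gunport.Grid

namespace Pool.Agent.Gunport

/-- border indicator -/
def bd (i j : ℕ) : ℕ := if i = 0 ∨ i = 17 ∨ j = 0 ∨ j = 15 then 1 else 0

def corner (i j : ℕ) : ℤ :=
  if bd i j + bd (i + 1) j + bd i (j + 1) + bd (i + 1) (j + 1) = 3 then 2 else 0

theorem corner_sum : ∑ i ∈ Finset.range 17, ∑ j ∈ Finset.range 15, corner i j = 8 := by
  decide +kernel

theorem Good.isX {lab : ℕ → ℕ → ℕ} (h : Good lab) (i j : ℕ) (hi : i < 18) (hj : j < 16) :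
    Gunport.isX (lab i j) = bd i j := by
  unfold Gunport.isX bd
  have := h.beq5 i j hi hj
  by_cases hb : i = 0 ∨ i = 17 ∨ j = 0 ∨ j = 15
  · rw [if_pos hb]
    have h5 : lab i j = 5 := by simpa [hb] using this
    rw [if_pos h5]
  · rw [if_neg hb]
    have h5 : ¬ lab i j = 5 := by simpa [hb] using this
    rw [if_neg h5]

theorem Good.win {lab : ℕ → ℕ → ℕ} (h : Good lab) (i j : ℕ) (hi : i < 17) (hj : j < 15) :
    2 * ((wc (lab i j) (lab (i + 1) j) (lab i (j + 1)) (lab (i + 1) (j + 1)) : ℕ) : ℤ) =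
      qq (lab (i + 1) (j + 1)) + (sR (lab (i + 1) j) - sR (lab (i + 1) (j + 1)))
      + (sB (lab i (j + 1)) - sB (lab (i + 1) (j + 1)))
      + (PP (lab i j) (lab i (j + 1)) - PP (lab (i + 1) j) (lab (i + 1) (j + 1)))
      + (QQ (lab i j) (lab (i + 1) j) - QQ (lab i (j + 1)) (lab (i + 1) (j + 1)))
      + corner i j := by
  have l1 := h.lt6 i j (by omega) (by omega)
  have l2 := h.lt6 (i + 1) j (by omega) (by omega)
  have l3 := h.lt6 i (j + 1) (by omega) (by omega)
  have l4 := h.lt6 (i + 1) (j + 1) (by omega) (by omega)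
  have w := h.wok i j hi hj
  rw [wc_eq _ l1 _ l2 _ l3 _ l4 w, win_id _ l1 _ l2 _ l3 _ l4 w,
    h.isX i j (by omega) (by omega), h.isX (i + 1) j (by omega) (by omega),
    h.isX i (j + 1) (by omega) (by omega), h.isX (i + 1) (j + 1) (by omega) (by omega)]
  rfl

theorem Good.total {lab : ℕ → ℕ → ℕ} (h : Good lab) :
    2 * (VV lab 17 : ℤ) =
      ∑ i ∈ Finset.range 17, ∑ j ∈ Finset.range 15, qq (lab (i + 1) (j + 1)) + 8 := by
  unfold VV Rc
  push_cast
  rw [Finset.mul_sum]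
  simp_rw [Finset.mul_sum]
  have e1 : ∀ i ∈ Finset.range 17, ∀ j ∈ Finset.range 15,
      2 * ((wc (lab i j) (lab (i + 1) j) (lab i (j + 1)) (lab (i + 1) (j + 1)) : ℕ) : ℤ) =
      qq (lab (i + 1) (j + 1)) + (sR (lab (i + 1) j) - sR (lab (i + 1) (j + 1)))
      + (sB (lab i (j + 1)) - sB (lab (i + 1) (j + 1)))
      + (PP (lab i j) (lab i (j + 1)) - PP (lab (i + 1) j) (lab (i + 1) (j + 1)))
      + (QQ (lab i j) (lab (i + 1) j) - QQ (lab i (j + 1)) (lab (i + 1) (j + 1)))
      + corner i j := fun i hi j hj => h.win i j (Finset.mem_range.1 hi) (Finset.mem_range.1 hj)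
  rw [Finset.sum_congr rfl fun i hi => Finset.sum_congr rfl fun j hj => e1 i hi j hj]
  simp only [Finset.sum_add_distrib]
  rw [corner_sum]
  have s1 : ∑ i ∈ Finset.range 17, ∑ j ∈ Finset.range 15,
      (sR (lab (i + 1) j) - sR (lab (i + 1) (j + 1))) = 0 := by
    apply Finset.sum_eq_zero
    intro i _
    rw [Finset.sum_range_sub' (fun j => sR (lab (i + 1) j))]
    rw [h.left, h.right]; simp
  have s2 : ∑ i ∈ Finset.range 17, ∑ j ∈ Finset.range 15,
      (sB (lab i (j + 1)) - sB (lab (i + 1) (j + 1))) = 0 := by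
    rw [Finset.sum_comm]
    apply Finset.sum_eq_zero
    intro j _
    rw [Finset.sum_range_sub' (fun i => sB (lab i (j + 1)))]
    rw [h.top, h.bot]; simp
  have s3 : ∑ i ∈ Finset.range 17, ∑ j ∈ Finset.range 15,
      (PP (lab i j) (lab i (j + 1)) - PP (lab (i + 1) j) (lab (i + 1) (j + 1))) = 0 := by
    rw [Finset.sum_comm]
    apply Finset.sum_eq_zero
    intro j _
    rw [Finset.sum_range_sub' (fun i => PP (lab i j) (lab i (j + 1)))]
    rw [h.top, h.top, h.bot, h.bot]; simp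
  have s4 : ∑ i ∈ Finset.range 17, ∑ j ∈ Finset.range 15,
      (QQ (lab i j) (lab (i + 1) j) - QQ (lab i (j + 1)) (lab (i + 1) (j + 1))) = 0 := by
    apply Finset.sum_eq_zero
    intro i _
    rw [Finset.sum_range_sub' (fun j => QQ (lab i j) (lab (i + 1) j))]
    rw [h.left, h.left, h.right, h.right]; simp
  rw [s1, s2, s3, s4]
  ring

theorem Good.count {lab : ℕ → ℕ → ℕ} (h : Good lab) :
    2 * (VV lab 17 : ℤ) + 12 * (∑ i ∈ Finset.range 16, ∑ j ∈ Finset.range 14,
      (isH (lab (i + 1) (j + 1)) : ℤ)) = 904 := by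
  have e : ∑ i ∈ Finset.range 17, ∑ j ∈ Finset.range 15, qq (lab (i + 1) (j + 1)) =
      ∑ i ∈ Finset.range 16, ∑ j ∈ Finset.range 14,
        (4 - 12 * (isH (lab (i + 1) (j + 1)) : ℤ)) := by
    rw [Finset.sum_range_succ (n := 16)]
    have z : ∑ j ∈ Finset.range 15, qq (lab (16 + 1) (j + 1)) = 0 := by
      apply Finset.sum_eq_zero
      intro j _
      rw [h.bot]; rfl
    rw [z, add_zero]
    apply Finset.sum_congr rfl
    intro i hi
    rw [Finset.sum_range_succ (n := 14), h.right]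
    have : qq 5 = 0 := rfl
    rw [this, add_zero]
    apply Finset.sum_congr rfl
    intro j hj
    have hl := h.lt i j (Finset.mem_range.1 hi) (Finset.mem_range.1 hj)
    unfold qq isH
    by_cases h0 : lab (i + 1) (j + 1) = 0
    · rw [h0]; norm_num
    · rw [if_neg h0, if_neg (by omega), if_neg h0]; norm_num
  rw [h.total, e]
  simp only [Finset.sum_sub_distrib, ← Finset.mul_sum]
  simp
  ring

end Pool.Agent.Gunport
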